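import Pool.Agent.Helper62.DSH.StC

/-!
# Project DSH (MP_087a81_gt), module PLJ: Poincare lemma for forms of all degrees
-/

set_option autoImplicit false

open Set Filter Topology MeasureTheory
open Helper62.LH Helper62.DSH
open scoped ContDiff ENNReal

noncomputable section

namespace Pool.Agent.Helper81.DSH

section par

variable {n : ℕ} {W : Type*} [NormedAddCommGroup W] [NormedSpace ℝ W] [CompleteSpace W]

/-- smoothness of a parametric integral -/
theorem par_smooth {G : E n → ℝ → W}
    (hG : ContDiff ℝ ∞ (fun p : E n × ℝ => G p.1 p.2)) :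
    ContDiff ℝ ∞ (fun x => ∫ t in (0 : ℝ)..1, G x t) := by
  let b : ContDiffBump (0 : ℝ) := ⟨2, 3, by norm_num, by norm_num⟩
  let f : ℝ → ℝ := indicator (Ioc 0 1) fun _ => 1
  let g : E n → ℝ → W := fun x u => b u • G x (-u)
  have hf : LocallyIntegrable f volume := by
    refine Integrable.locallyIntegrable ?_
    rw [integrable_indicator_iff measurableSet_Ioc]
    exact integrableOn_const (by simp)
  have hgs : ∀ p : E n, ∀ x, p ∈ (univ : Set (E n)) → x ∉ Metric.closedBall (0 : ℝ) 3 →
      g p x = 0 := by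
    intro p x _ hx
    have : b x = 0 := by
      refine b.zero_of_le_dist ?_
      rw [Metric.mem_closedBall, not_le] at hx
      exact hx.le
    simp only [g, this, zero_smul]
  have hg : ContDiffOn ℝ ((⊤ : ℕ∞) : WithTop ℕ∞) ↿g ((univ : Set (E n)) ×ˢ univ) := by
    refine ContDiff.contDiffOn ?_
    have h1 : ContDiff ℝ ∞ (fun p : E n × ℝ => b p.2) := b.contDiff.comp contDiff_snd
    have h2 : ContDiff ℝ ∞ (fun p : E n × ℝ => G p.1 (-p.2)) :=
      hG.comp (contDiff_fst.prodMk contDiff_snd.neg)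
    exact h1.smul h2
  have key := contDiffOn_convolution_right_with_param (μ := (volume : Measure ℝ)) (n := ⊤)
    (ContinuousLinearMap.lsmul ℝ ℝ : ℝ →L[ℝ] W →L[ℝ] W) isOpen_univ
    (isCompact_closedBall (0 : ℝ) 3) hgs hf hg
  rw [univ_prod_univ, contDiffOn_univ] at key
  have key2 : ContDiff ℝ ∞ (fun x : E n => (convolution f (g x)
      (ContinuousLinearMap.lsmul ℝ ℝ : ℝ →L[ℝ] W →L[ℝ] W) volume) (0 : ℝ)) :=
    key.comp (contDiff_id.prodMk (contDiff_const (c := (0 : ℝ))))
  convert key2 using 2 with x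
  rw [intervalIntegral.integral_of_le zero_le_one, convolution_def,
    ← integral_indicator measurableSet_Ioc]
  congr 1
  funext t
  by_cases ht : t ∈ Ioc (0 : ℝ) 1
  · have hb : b (-t) = 1 := by
      refine b.one_of_mem_closedBall ?_
      rw [Metric.mem_closedBall, dist_zero_right, norm_neg, Real.norm_of_nonneg ht.1.le]
      exact ht.2.trans (by norm_num)
    simp only [f, g, indicator_of_mem ht, ContinuousLinearMap.lsmul_apply, one_smul, zero_sub,
      neg_neg, hb]
  · simp only [f, indicator_of_notMem ht, ContinuousLinearMap.lsmul_apply, zero_smul]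

/-- the derivative of a parametric integral -/
theorem par_D {G : E n → ℝ → W}
    (hG : ContDiff ℝ ∞ (fun p : E n × ℝ => G p.1 p.2)) (x : E n) :
    IntervalIntegrable (fun t => fderiv ℝ (fun y => G y t) x) volume 0 1 ∧
    fderiv ℝ (fun x => ∫ t in (0 : ℝ)..1, G x t) x =
      ∫ t in (0 : ℝ)..1, fderiv ℝ (fun y => G y t) x := by
  let F' : E n → ℝ → E n →L[ℝ] W := fun x t =>
    (fderiv ℝ (fun p : E n × ℝ => G p.1 p.2) (x, t)).comp (ContinuousLinearMap.inl ℝ (E n) ℝ)
  have hF'c : Continuous (fun p : E n × ℝ => F' p.1 p.2) := by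
    have h1 : Continuous (fderiv ℝ (fun p : E n × ℝ => G p.1 p.2)) :=
      hG.continuous_fderiv (by simp)
    exact h1.clm_comp continuous_const
  have hder : ∀ x t, HasFDerivAt (fun y => G y t) (F' x t) x := by
    intro x t
    have h1 : HasFDerivAt (fun p : E n × ℝ => G p.1 p.2)
        (fderiv ℝ (fun p : E n × ℝ => G p.1 p.2) (x, t)) (x, t) :=
      (hG.differentiable (by simp) (x, t)).hasFDerivAt
    have h2 : HasFDerivAt (fun y : E n => (y, t)) (ContinuousLinearMap.inl ℝ (E n) ℝ) x :=
      hasFDerivAt_prodMk_left x t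
    exact h1.comp x h2
  obtain ⟨M, hM⟩ := ((isCompact_closedBall x 1).prod
    (isCompact_Icc (a := (0 : ℝ)) (b := 1))).exists_bound_of_continuousOn hF'c.continuousOn
  have hsub : Set.uIoc (0 : ℝ) 1 ⊆ Icc 0 1 := by
    rw [uIoc_of_le zero_le_one]; exact Ioc_subset_Icc_self
  have hGc : ∀ x, Continuous (G x) := fun x =>
    hG.continuous.comp (continuous_const.prodMk continuous_id)
  have hF'c' : ∀ x, Continuous (F' x) := fun x =>
    hF'c.comp (continuous_const.prodMk continuous_id)
  have key := intervalIntegral.hasFDerivAt_integral_of_dominated_of_fderiv_le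
    (μ := volume) (a := (0 : ℝ)) (b := 1) (F := G) (F' := F') (x₀ := x)
    (s := Metric.closedBall x 1) (bound := fun _ => M)
    (Metric.closedBall_mem_nhds x zero_lt_one)
    (Eventually.of_forall fun y => (hGc y).aestronglyMeasurable)
    ((hGc x).intervalIntegrable 0 1) (hF'c' x).aestronglyMeasurable
    (Eventually.of_forall fun t ht y hy => hM (y, t) ⟨hy, hsub ht⟩)
    intervalIntegrable_const
    (Eventually.of_forall fun t _ y _ => hder y t)
  have h3 : (fun t => fderiv ℝ (fun y => G y t) x) = F' x := by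
    funext t
    exact (hder x t).fderiv
  rw [key.fderiv, h3]
  exact ⟨(hF'c' x).intervalIntegrable 0 1, rfl⟩

end par

/-- the integrand is smooth -/
theorem gen_smooth {n j : ℕ} {A B : Type*} [NormedAddCommGroup A] [NormedSpace ℝ A]
    [NormedAddCommGroup B] [NormedSpace ℝ B] (C : A →L[ℝ] E n →L[ℝ] B) {P : E n → A}
    (hP : ContDiff ℝ ∞ P) :
    ContDiff ℝ ∞ (fun p : E n × ℝ => p.2 ^ j • C (P (p.2 • p.1)) p.1) := by
  have h1 : ContDiff ℝ ∞ (fun p : E n × ℝ => P (p.2 • p.1)) :=
    hP.comp (contDiff_snd.smul contDiff_fst)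
  have h2 : ContDiff ℝ ∞ (fun p : E n × ℝ => C (P (p.2 • p.1))) := C.contDiff.comp h1
  exact (contDiff_snd.pow j).smul (h2.clm_apply contDiff_fst)

/-- the derivative of the integrand -/
theorem gen_D {n j : ℕ} {A B : Type*} [NormedAddCommGroup A] [NormedSpace ℝ A]
    [NormedAddCommGroup B] [NormedSpace ℝ B] (C : A →L[ℝ] E n →L[ℝ] B) {P : E n → A}
    (hP : ContDiff ℝ ∞ P) (t : ℝ) (x u : E n) :
    fderiv ℝ (fun y => t ^ j • C (P (t • y)) y) x u =
      t ^ j • C (P (t • x)) u + t ^ (j + 1) • C (fderiv ℝ P (t • x) u) x := by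
  have h0 : HasFDerivAt (fun y : E n => t • y) (t • ContinuousLinearMap.id ℝ (E n)) x :=
    (hasFDerivAt_id x).const_smul t
  have hp : HasFDerivAt P (fderiv ℝ P (t • x)) (t • x) :=
    (hP.differentiable (by simp) (t • x)).hasFDerivAt
  have h1 : HasFDerivAt (fun y => P (t • y))
      ((fderiv ℝ P (t • x)).comp (t • ContinuousLinearMap.id ℝ (E n))) x := hp.comp x h0
  have h2 : HasFDerivAt (fun y => C (P (t • y)))
      (C.comp ((fderiv ℝ P (t • x)).comp (t • ContinuousLinearMap.id ℝ (E n)))) x :=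
    C.hasFDerivAt.comp x h1
  have h3 := (h2.clm_apply (hasFDerivAt_id x)).const_smul (t ^ j)
  have h4 := congrArg (fun L : E n →L[ℝ] B => L u) h3.fderiv
  have h5 : (fun y : E n => t ^ j • C (P (t • y)) (id y)) = fun y => t ^ j • C (P (t • y)) y := rfl
  simp only [ContinuousLinearMap.smul_apply, ContinuousLinearMap.add_apply,
    ContinuousLinearMap.comp_apply, ContinuousLinearMap.flip_apply, ContinuousLinearMap.id_apply,
    map_smul, smul_add, id] at h4
  rw [pow_succ, mul_smul]
  exact h4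

/-- derivative along the ray -/
theorem ray {n : ℕ} {A : Type*} [NormedAddCommGroup A] [NormedSpace ℝ A] [CompleteSpace A]
    {P : E n → A} (hP : ContDiff ℝ ∞ P) (j : ℕ) (x : E n) :
    ∫ t in (0 : ℝ)..1, (((j + 1 : ℕ) : ℝ) • t ^ j • P (t • x) +
      t ^ (j + 1) • fderiv ℝ P (t • x) x) = P x := by
  have hder : ∀ t ∈ uIcc (0 : ℝ) 1, HasDerivAt (fun t : ℝ => t ^ (j + 1) • P (t • x))
      (((j + 1 : ℕ) : ℝ) • t ^ j • P (t • x) + t ^ (j + 1) • fderiv ℝ P (t • x) x) t := by
    intro t _
    have h1 : HasDerivAt (fun t : ℝ => t • x) x t := by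
      simpa using (hasDerivAt_id t).smul_const x
    have h2 : HasDerivAt (fun t : ℝ => P (t • x)) (fderiv ℝ P (t • x) x) t := by
      have hp : HasFDerivAt P (fderiv ℝ P (t • x)) (t • x) :=
        (hP.differentiable (by simp) (t • x)).hasFDerivAt
      exact hp.comp_hasDerivAt t h1
    have h5 := (hasDerivAt_pow (j + 1) t).smul h2
    rw [Nat.add_sub_cancel] at h5
    rw [smul_smul]
    exact h5.congr_deriv (add_comm _ _)
  have hPc : Continuous fun t : ℝ => P (t • x) :=
    hP.continuous.comp (continuous_id.smul continuous_const)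
  have hDc : Continuous fun t : ℝ => fderiv ℝ P (t • x) x :=
    ((hP.continuous_fderiv (by simp)).comp (continuous_id.smul continuous_const)).clm_apply
      continuous_const
  rw [intervalIntegral.integral_eq_sub_of_hasDerivAt hder]
  · simp
  · exact ((((continuous_pow j).smul hPc).const_smul _).add
      ((continuous_pow (j + 1)).smul hDc)).intervalIntegrable _ _

/-- Cartan formula, algebraic part -/
theorem cartan {n j : ℕ} (L : E n →L[ℝ] E n [⋀^Fin (j + 1)]→L[ℝ] ℝ) (x : E n)
    (M : E n →L[ℝ] E n [⋀^Fin j]→L[ℝ] ℝ) (hM : ∀ u, M u = (L u).curryLeft x) :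
    ContinuousAlternatingMap.alternatizeUncurryFin M =
      L x - (ContinuousAlternatingMap.alternatizeUncurryFin L).curryLeft x := by
  ext v
  rw [ContinuousAlternatingMap.sub_apply, ContinuousAlternatingMap.curryLeft_apply_apply,
    ContinuousAlternatingMap.alternatizeUncurryFin_apply,
    ContinuousAlternatingMap.alternatizeUncurryFin_apply, Fin.sum_univ_succ (n := j + 1)]
  have h1 : (0 : Fin (j + 2)).removeNth (Matrix.vecCons x v) = v := by
    funext i
    simp [Fin.removeNth]
  have h2 : ∀ i : Fin (j + 1), i.succ.removeNth (Matrix.vecCons x v) =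
      Matrix.vecCons x (i.removeNth v) := by
    intro i
    funext k
    refine Fin.cases ?_ (fun k => ?_) k
    · simp [Fin.removeNth]
    · simp [Fin.removeNth]
  simp only [h1, h2, Matrix.cons_val_zero, Matrix.cons_val_succ, Fin.val_zero, Fin.val_succ,
    pow_zero, one_smul, hM, ContinuousAlternatingMap.curryLeft_apply_apply, pow_succ, mul_neg,
    mul_one, neg_smul, Finset.sum_neg_distrib]
  abel

/-- PLJ. -/
theorem hPlj : TPlj := by
  intro n j P hP hcl
  have hPd : Differentiable ℝ P := hP.differentiable (by simp)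
  have hGs := gen_smooth (j := j) (A := E n [⋀^Fin (j + 1)]→L[ℝ] ℝ) (B := E n [⋀^Fin j]→L[ℝ] ℝ)
    ContinuousAlternatingMap.curryLeftLI.toContinuousLinearMap hP
  have hGD := gen_D (j := j) (A := E n [⋀^Fin (j + 1)]→L[ℝ] ℝ) (B := E n [⋀^Fin j]→L[ℝ] ℝ)
    ContinuousAlternatingMap.curryLeftLI.toContinuousLinearMap hP
  simp only [LinearIsometry.coe_toContinuousLinearMap,
    ContinuousAlternatingMap.curryLeftLI_apply] at hGs hGD
  refine ⟨fun x => ∫ t in (0 : ℝ)..1, t ^ j • (P (t • x)).curryLeft x,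
    par_smooth (G := fun x t => t ^ j • (P (t • x)).curryLeft x) hGs, fun x => ?_⟩
  obtain ⟨hint, hD⟩ := par_D (G := fun x t => t ^ j • (P (t • x)).curryLeft x) hGs x
  have h1 : ∀ t : ℝ, ContinuousAlternatingMap.alternatizeUncurryFinCLM ℝ (E n) ℝ
      (fderiv ℝ (fun y => t ^ j • (P (t • y)).curryLeft y) x) =
      ((j + 1 : ℕ) : ℝ) • t ^ j • P (t • x) + t ^ (j + 1) • fderiv ℝ P (t • x) x := by
    intro t
    rw [ContinuousAlternatingMap.alternatizeUncurryFinCLM_apply]
    obtain ⟨M, hM⟩ : ∃ M : E n →L[ℝ] E n [⋀^Fin j]→L[ℝ] ℝ,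
        ∀ u, M u = (fderiv ℝ P (t • x) u).curryLeft x :=
      ⟨(ContinuousLinearMap.apply ℝ (E n [⋀^Fin j]→L[ℝ] ℝ) x).comp
        ((ContinuousAlternatingMap.curryLeftLI (𝕜 := ℝ) (E := E n) (F := ℝ)
          (n := j)).toContinuousLinearMap.comp (fderiv ℝ P (t • x))), fun u => rfl⟩
    have h3 : fderiv ℝ (fun y => t ^ j • (P (t • y)).curryLeft y) x =
        t ^ j • (P (t • x)).curryLeft + t ^ (j + 1) • M := by
      ext1 u
      rw [hGD, ContinuousLinearMap.add_apply, ContinuousLinearMap.smul_apply,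
        ContinuousLinearMap.smul_apply, hM]
    have h4 : ContinuousAlternatingMap.alternatizeUncurryFin (fderiv ℝ P (t • x)) = 0 :=
      hcl (t • x)
    rw [h3, ContinuousAlternatingMap.alternatizeUncurryFin_add,
      ContinuousAlternatingMap.alternatizeUncurryFin_smul,
      ContinuousAlternatingMap.alternatizeUncurryFin_smul,
      ContinuousAlternatingMap.alternatizeUncurryFin_curryLeft, cartan _ x M hM, h4,
      ContinuousAlternatingMap.curryLeft_zero, ContinuousLinearMap.zero_apply, sub_zero,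
      Nat.cast_smul_eq_nsmul, smul_comm (t ^ j)]
  have h2 := ray hP j x
  unfold extDeriv
  rw [hD, ← ContinuousAlternatingMap.alternatizeUncurryFinCLM_apply,
    ← ContinuousLinearMap.intervalIntegral_comp_comm _ hint]
  simp only [h1]
  exact h2

end Pool.Agent.Helper81.DSH
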